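import Mathlib
import Pool.Agent.TH118.CR.Torus

/-!
# An element of the Lie algebra with three eigenvalues
-/

set_option linter.unusedSectionVars false

namespace Pool.Agent.TH118.CU

open Module Pool.Agent.H204R3.SP Pool.Agent.H204R3.GP Pool.Agent.W522.U Pool.Agent.TH118.CR

/-- An additive functional that does not vanish on finitely many elements of infinite order. -/
theorem exists_add_finset {K : Type} [Field K] [CharZero K] (S : Finset Kˣ)
    (hS : ∀ x ∈ S, ∀ k : ℕ, 0 < k → x ^ k ≠ 1) :
    ∃ a : Additive Kˣ →+ K, ∀ x ∈ S, a (Additive.ofMul x) ≠ 0 := by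
  classical
  induction S using Finset.induction_on with
  | empty => exact ⟨0, fun x hx => absurd hx (Finset.notMem_empty x)⟩
  | insert y S _ ih =>
    obtain ⟨a, ha⟩ := ih fun x hx => hS x (Finset.mem_insert_of_mem hx)
    obtain ⟨b, hb⟩ := exists_add y (hS y (Finset.mem_insert_self y S))
    -- the exceptional values
    let bad : Finset K := (insert y S).image fun x =>
      -(a (Additive.ofMul x)) / b (Additive.ofMul x)
    obtain ⟨c, hc⟩ : ∃ c : K, c ∉ bad := Infinite.exists_notMem_finset bad
    let a' : Additive Kˣ →+ K := a + (AddMonoidHom.mulLeft c).comp b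
    refine ⟨a', fun x hx h => ?_⟩
    have h1 : a (Additive.ofMul x) + c * b (Additive.ofMul x) = 0 := h
    by_cases hbx : b (Additive.ofMul x) = 0
    · rw [hbx, mul_zero, add_zero] at h1
      rcases Finset.mem_insert.1 hx with rfl | hxS
      · exact hb hbx
      · exact ha x hxS h1
    · apply hc
      refine Finset.mem_image.2 ⟨x, hx, ?_⟩
      field_simp
      linear_combination -h1

variable {K : Type} [Field K] [CharZero K] {X : Type} [AddCommGroup X] [Module K X]
  [FiniteDimensional K X] {Γ : Type} [Group Γ] (R : Representation K Γ X) (χ : Γ →* K)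

/-- A diagonalizable element of the group with three eigenvectors such that no quotient of two of
the eigenvalues is a root of unity gives an element of the Lie algebra with three different
eigenvalues. -/
theorem exists_three {n : ℕ} (F : Γ) (b : Basis (Fin n) K X)
    (hb : ∀ k, ∃ a : K, R F (b k) = a • b k) (u : Fin 3 → X) (hu0 : ∀ i, u i ≠ 0)
    (al : Fin 3 → K) (hu : ∀ i, R F (u i) = al i • u i)
    (hab : ∀ i j, i ≠ j → ∀ k : ℕ, 0 < k → al i ^ k ≠ al j ^ k) :
    ∃ Y ∈ lieT R χ, ∃ s : Fin 3 → K, Function.Injective s ∧ ∀ i, Y (u i) = s i • u i := by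
  classical
  choose lam hlam using hb
  have hne : ∀ (w : X) (a : K), w ≠ 0 → R F w = a • w → a ≠ 0 := by
    intro w a hw h h0
    rw [h0, zero_smul] at h
    exact Rne F hw h
  have hlam0 : ∀ k, lam k ≠ 0 := fun k => hne _ _ (b.ne_zero k) (hlam k)
  let lam' : Fin n → Kˣ := fun k => Units.mk0 (lam k) (hlam0 k)
  let al' : Fin 3 → Kˣ := fun i => Units.mk0 (al i) (hne (u i) (al i) (hu0 i) (hu i))
  let S : Finset Kˣ := ((Finset.univ : Finset (Fin 3 × Fin 3)).filter fun p => p.1 ≠ p.2).image
    fun p => al' p.1 * (al' p.2)⁻¹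
  obtain ⟨a, ha⟩ := exists_add_finset S (by
    intro x hx k hk h
    obtain ⟨⟨i, j⟩, hij, rfl⟩ := Finset.mem_image.1 hx
    have hij' : i ≠ j := (Finset.mem_filter.1 hij).2
    apply hab i j hij' k hk
    rw [mul_pow, inv_pow, mul_inv_eq_one] at h
    have h1 := congrArg (fun x : Kˣ => (x : K)) h
    simpa [al'] using h1)
  have hχ0 : χ F ≠ 0 := χne (χ := χ) F
  let c : Kˣ := Units.mk0 (χ F) hχ0
  let t : Kˣ → K := fun x => a (Additive.ofMul x) - a (Additive.ofMul c) / 2
  refine ⟨dg b (fun k => t (lam' k)), dg_mem R χ F b lam' hlam c rfl a, fun i => t (al' i), ?_,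
    fun i => dg_eig R F b lam' hlam t (al' i) (hu i)⟩
  intro i j hij
  by_contra hne'
  apply ha (al' i * (al' j)⁻¹)
    (Finset.mem_image.2 ⟨(i, j), Finset.mem_filter.2 ⟨Finset.mem_univ _, hne'⟩, rfl⟩)
  rw [ofMul_mul, ofMul_inv, map_add, map_neg]
  have h1 : a (Additive.ofMul (al' i)) - a (Additive.ofMul c) / 2 =
    a (Additive.ofMul (al' j)) - a (Additive.ofMul c) / 2 := hij
  linear_combination h1

end Pool.Agent.TH118.CU
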