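import Mathlib
import Pool.Agent.TH118.CR.Refl
import Pool.Agent.TH118.CU.Rigid
import Pool.Agent.TH118.CU.Frob

/-!
# Symplectic bireflections
-/

set_option linter.unusedSectionVars false

namespace Pool.Agent.TH118.CU

open Module Pool.Agent.H204R3.SP Pool.Agent.H204R3.GP Pool.Agent.W522.U Pool.Agent.TH118.CR
open Pool.Agent.W529.Ta

variable {K : Type} [Field K] [CharZero K] {X : Type} [AddCommGroup X] [Module K X]
  [FiniteDimensional K X] {Γ : Type} [Group Γ]

/-- On `U`, `γ` is `c` times the symplectic transformation with eigenvalues `ζ` and `ζ⁻¹` at `l` and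
`l'`, which is the identity on the orthogonal complement of the hyperbolic plane of `l` and `l'`. -/
def BiAt (R : Representation K Γ X) (ω : X →ₗ[K] X →ₗ[K] K) (γ : Γ) (U : Submodule K X)
    (ζ c : K) (l l' : X) : Prop :=
  l ∈ U ∧ l' ∈ U ∧ ω l l' = 1 ∧
    ∀ u ∈ U, R γ u = c • (u + ((ζ - 1) * ω u l') • l + ((ζ⁻¹ - 1) * ω l u) • l')

/-- On `U`, `γ` is a scalar times a symplectic transformation with the eigenvalues `ζ`, `ζ⁻¹` on a
hyperbolic plane and the identity on the orthogonal complement of the plane. -/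
def BireflectsOn (R : Representation K Γ X) (ω : X →ₗ[K] X →ₗ[K] K) (γ : Γ) (U : Submodule K X)
    (ζ : K) : Prop :=
  ∃ (c : K) (l l' : X), BiAt R ω γ U ζ c l l'

variable {R : Representation K Γ X} {χ : Γ →* K} {ω : X →ₗ[K] X →ₗ[K] K} (halt : ∀ v, ω v v = 0)
  {γ : Γ} {U : Submodule K X} {ζ c : K} {l l' : X}

include halt

theorem BiAt.symm (h : BiAt R ω γ U ζ c l l') : BiAt R ω γ U ζ⁻¹ c l' (-l) := by
  obtain ⟨h1, h2, h3, h4⟩ := h
  have hanti := alt_anti halt
  refine ⟨h2, U.neg_mem h1, ?_, fun u hu => ?_⟩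
  · rw [map_neg, hanti, neg_neg, h3]
  · rw [h4 u hu, inv_inv, map_neg, hanti u l, hanti l' u]
    module

theorem BiAt.l_eig (h : BiAt R ω γ U ζ c l l') : R γ l = (c * ζ) • l := by
  obtain ⟨h1, h2, h3, h4⟩ := h
  rw [h4 l h1, halt, h3]
  module

theorem BiAt.ne (h : BiAt R ω γ U ζ c l l') : l ≠ 0 ∧ c ≠ 0 ∧ ζ ≠ 0 := by
  have hl : l ≠ 0 := by
    rintro rfl
    have h3 := h.2.2.1
    rw [map_zero, LinearMap.zero_apply] at h3
    exact zero_ne_one h3
  have h1 := Rne (R := R) γ hl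
  rw [h.l_eig halt] at h1
  refine ⟨hl, ?_, ?_⟩
  · rintro rfl
    exact h1 (by rw [zero_mul, zero_smul])
  · rintro rfl
    exact h1 (by rw [mul_zero, zero_smul])

theorem BiAt.l'_eig (h : BiAt R ω γ U ζ c l l') : R γ l' = (c * ζ⁻¹) • l' := by
  obtain ⟨h1, h2, h3, h4⟩ := h
  rw [h4 l' h2, halt, h3]
  module

/-- The eigenvectors. -/
theorem BiAt.eig (h : BiAt R ω γ U ζ c l l') {w : X} (hw : w ∈ U) {r : K}
    (hwr : R γ w = (c * r) • w) : (r = ζ ∨ ω w l' = 0) ∧ (r = ζ⁻¹ ∨ ω l w = 0) ∧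
      (r - 1) • w = ((ζ - 1) * ω w l') • l + ((ζ⁻¹ - 1) * ω l w) • l' := by
  obtain ⟨-, hc, hζ⟩ := h.ne halt
  obtain ⟨h1, h2, h3, h4⟩ := h
  rw [h4 w hw, mul_smul c r] at hwr
  have h5 : w + ((ζ - 1) * ω w l') • l + ((ζ⁻¹ - 1) * ω l w) • l' = r • w :=
    smul_right_injective _ hc hwr
  have hanti := alt_anti halt
  refine ⟨?_, ?_, ?_⟩
  · have h6 := congrArg (fun v => ω v l') h5
    simp only [map_add, map_smul, LinearMap.add_apply, LinearMap.smul_apply, smul_eq_mul, h3,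
      halt] at h6
    have h7 : (ζ - r) * ω w l' = 0 := by linear_combination h6
    rcases mul_eq_zero.1 h7 with h8 | h8
    · left
      exact (sub_eq_zero.1 h8).symm
    · exact Or.inr h8
  · have h6 := congrArg (fun v => ω l v) h5
    simp only [map_add, map_smul, smul_eq_mul, h3, halt] at h6
    have h7 : (ζ⁻¹ - r) * ω l w = 0 := by linear_combination h6
    rcases mul_eq_zero.1 h7 with h8 | h8
    · left
      exact (sub_eq_zero.1 h8).symm
    · exact Or.inr h8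
  · rw [sub_smul, ← h5]
    module

theorem BiAt.eig3 (h : BiAt R ω γ U ζ c l l') {w : X} (hw : w ∈ U) (hw0 : w ≠ 0) {r : K}
    (hwr : R γ w = (c * r) • w) : r = 1 ∨ r = ζ ∨ r = ζ⁻¹ := by
  obtain ⟨h1, h2, h3⟩ := h.eig halt hw hwr
  rcases h1 with h1 | h1
  · exact Or.inr (Or.inl h1)
  rcases h2 with h2 | h2
  · exact Or.inr (Or.inr h2)
  left
  rw [h1, h2, mul_zero, mul_zero, zero_smul, zero_smul, add_zero] at h3
  exact sub_eq_zero.1 ((smul_eq_zero.1 h3).resolve_right hw0)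

section N

variable {N : End K X} (hNU : ∀ u ∈ U, N u ∈ U)
  (hsk : ∀ u v, ω (N u) v + ω u (N v) = 0) {μ : K} (hμ : ∀ u, R γ (N u) = μ • N (R γ u))
  (hμ1 : μ ≠ 1) (hμ2 : μ ≠ -1)

include hμ in
omit halt in
theorem N_eig {w : X} {r : K} (hwr : R γ w = (c * r) • w) : R γ (N w) = (c * (μ * r)) • N w := by
  rw [hμ, hwr, map_smul, smul_smul]
  congr 1
  ring

include hμ1 hμ2 in
omit halt in
theorem mu_sq : μ * μ ≠ 1 := by
  intro h
  have h1 : (μ - 1) * (μ + 1) = 0 := by linear_combination h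
  rcases mul_eq_zero.1 h1 with h3 | h3
  · exact hμ1 (sub_eq_zero.1 h3)
  · exact hμ2 (eq_neg_of_add_eq_zero_left h3)

include hNU hsk hμ hμ1 hμ2 in
theorem BiAt.sq_l (h : BiAt R ω γ U ζ c l l') (h3 : ζ = 1 ∨ ζ ^ 3 ≠ 1) : N (N l) = 0 := by
  by_contra hw0
  obtain ⟨-, hc, hζ⟩ := h.ne halt
  have hμμ := mu_sq hμ1 hμ2
  have hlr := h.l_eig halt
  have e1 := N_eig (N := N) hμ hlr
  have e2 := N_eig (N := N) hμ e1
  have hNl : N l ≠ 0 := by
    intro h0
    rw [h0, map_zero] at hw0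
    exact hw0 rfl
  have hU1 : N l ∈ U := hNU l h.1
  have hU2 : N (N l) ∈ U := hNU _ hU1
  obtain ⟨f1, -, f3⟩ := h.eig halt hU2 e2
  have hx' : ω l (N (N l)) = 0 := by
    have g := hsk l (N l)
    rw [halt, zero_add] at g
    exact g
  have hx : ω (N (N l)) l' = 0 := by
    refine f1.resolve_left fun g => hμμ ?_
    have g2 : (μ * μ - 1) * ζ = 0 := by linear_combination g
    exact sub_eq_zero.1 ((mul_eq_zero.1 g2).resolve_right hζ)
  rw [hx, hx', mul_zero, mul_zero, zero_smul, zero_smul, add_zero] at f3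
  have g3 : μ * (μ * ζ) = 1 := sub_eq_zero.1 ((smul_eq_zero.1 f3).resolve_right hw0)
  rcases h.eig3 halt hU1 hNl e1 with g | g | g
  · rw [g, mul_one] at g3
    exact hμ1 g3
  · apply hμ1
    have g2 : (μ - 1) * ζ = 0 := by linear_combination g
    exact sub_eq_zero.1 ((mul_eq_zero.1 g2).resolve_right hζ)
  · have g4 : μ = ζ := by
      rw [g] at g3
      exact (mul_inv_eq_one₀ hζ).1 g3
    have g5 : ζ ^ 3 = 1 := by
      rw [g4] at g
      have g6 : ζ * ζ * ζ = 1 := by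
        rw [g]
        exact inv_mul_cancel₀ hζ
      linear_combination g6
    rcases h3 with g6 | g6
    · exact hμ1 (g4.trans g6)
    · exact g6 g5

include hNU hμ hμ1 hμ2 in
theorem BiAt.sq_h (h : BiAt R ω γ U ζ c l l') (h3 : ζ = 1 ∨ ζ ^ 3 ≠ 1) {v : X} (hv : v ∈ U)
    (hv1 : R γ v = c • v) : N (N v) = 0 := by
  by_contra hw0
  obtain ⟨-, hc, hζ⟩ := h.ne halt
  have hμμ := mu_sq hμ1 hμ2
  have hvr : R γ v = (c * 1) • v := by rw [mul_one]; exact hv1
  have e1 := N_eig (N := N) hμ hvr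
  have e2 := N_eig (N := N) hμ e1
  have hNv : N v ≠ 0 := by
    intro h0
    rw [h0, map_zero] at hw0
    exact hw0 rfl
  have hU1 : N v ∈ U := hNU v hv
  have g1 := h.eig3 halt hU1 hNv e1
  have g2 := h.eig3 halt (hNU _ hU1) hw0 e2
  rw [mul_one] at g1 g2
  have hz3 : ζ ^ 3 = 1 → False := by
    intro g5
    rcases h3 with g6 | g6
    · rw [g6] at g1
      rcases g1 with g | g | g
      · exact hμ1 g
      · exact hμ1 g
      · rw [inv_one] at g
        exact hμ1 g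
    · exact g6 g5
  rcases g1 with g | g | g
  · exact hμ1 g
  · rcases g2 with g' | g' | g'
    · exact hμμ g'
    · rw [g] at g'
      apply hμ1
      rw [g]
      exact mul_right_cancel₀ hζ (by rw [g', one_mul])
    · rw [g] at g'
      have g6 : ζ * ζ * ζ = 1 := by
        rw [g']
        exact inv_mul_cancel₀ hζ
      exact hz3 (by linear_combination g6)
  · rcases g2 with g' | g' | g'
    · exact hμμ g'
    · rw [g] at g'
      have g6 : 1 = ζ * (ζ * ζ) := by
        have g7 : (ζ⁻¹ * ζ⁻¹) * (ζ * ζ) = ζ * (ζ * ζ) := by rw [g']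
        rw [← g7]
        field_simp
      exact hz3 (by linear_combination -g6)
    · rw [g] at g'
      apply hμ1
      rw [g]
      exact mul_right_cancel₀ (inv_ne_zero hζ) (by rw [g', one_mul])

omit [CharZero K] [FiniteDimensional K X] in
theorem BiAt.h_eig (h : BiAt R ω γ U ζ c l l') {u : X} (hu : u ∈ U) :
    u - ω u l' • l - ω l u • l' ∈ U ∧
      R γ (u - ω u l' • l - ω l u • l') = c • (u - ω u l' • l - ω l u • l') := by
  obtain ⟨h1, h2, h3, h4⟩ := h
  have hm : u - ω u l' • l - ω l u • l' ∈ U :=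
    U.sub_mem (U.sub_mem hu (U.smul_mem _ h1)) (U.smul_mem _ h2)
  refine ⟨hm, ?_⟩
  have e1 : ω (u - ω u l' • l - ω l u • l') l' = 0 := by
    simp only [map_sub, map_smul, LinearMap.sub_apply, LinearMap.smul_apply, smul_eq_mul, h3, halt]
    ring
  have e2 : ω l (u - ω u l' • l - ω l u • l') = 0 := by
    simp only [map_sub, map_smul, smul_eq_mul, h3, halt]
    ring
  rw [h4 _ hm, e1, e2, mul_zero, mul_zero, zero_smul, zero_smul, add_zero, add_zero]

include hNU hsk hμ hμ1 hμ2 in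
theorem BiAt.sq_zero (h : BiAt R ω γ U ζ c l l') (h3 : ζ = 1 ∨ ζ ^ 3 ≠ 1) :
    ∀ u ∈ U, N (N u) = 0 := by
  intro u hu
  obtain ⟨g1, g2⟩ := h.h_eig halt hu
  have e1 := h.sq_l halt hNU hsk hμ hμ1 hμ2 h3
  have e2 := h.sq_h halt hNU hμ hμ1 hμ2 h3 g1 g2
  have h3' : ζ⁻¹ = 1 ∨ ζ⁻¹ ^ 3 ≠ 1 := by
    rcases h3 with g | g
    · left
      rw [g, inv_one]
    · right
      rwa [inv_pow, ne_eq, inv_eq_one]
  have e3 := (h.symm halt).sq_l halt hNU hsk hμ hμ1 hμ2 h3'
  have e4 : u = (u - ω u l' • l - ω l u • l') + ω u l' • l + ω l u • l' := by abel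
  rw [e4, map_add, map_add, map_add, map_add, map_smul, map_smul, map_smul, map_smul, e1, e2, e3,
    smul_zero, smul_zero, add_zero, add_zero]

end N

end Pool.Agent.TH118.CU
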