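import Mathlib
import Pool.Agent.TH115.Toric
import Pool.Agent.TH118.CR.Nil

/-!
# A nilpotent element of rank at most two in the Lie algebra
-/

set_option linter.unusedSectionVars false

namespace Pool.Agent.TH118.CU

open Module Pool.Agent.H204R3.SP Pool.Agent.H204R3.GP Pool.Agent.W522.U Pool.Agent.W529.Ta
open Pool.Agent.W528.Odd Pool.Agent.W528.Tor

noncomputable section

section normalizer

variable {K : Type} [Field K] [CharZero K] {U : Type} [AddCommGroup U] [Module K U]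
  (om : U →ₗ[K] U →ₗ[K] K) (𝔥 : Submodule K (Module.End K U))

/-- The similitudes which normalize the Lie algebra, with their multipliers. -/
def nrm : Subgroup ((Module.End K U)ˣ × Kˣ) where
  carrier := {p | (∀ u v, om (p.1.1 u) (p.1.1 v) = p.2.1 * om u v) ∧
    (∀ X ∈ 𝔥, p.1.1 * X * p.1⁻¹.1 ∈ 𝔥) ∧ ∀ X ∈ 𝔥, p.1⁻¹.1 * X * p.1.1 ∈ 𝔥}
  one_mem' := by
    refine ⟨fun u v => ?_, fun X hX => ?_, fun X hX => ?_⟩
    · simp
    · simpa using hX
    · simpa using hX
  mul_mem' := by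
    rintro ⟨g, c⟩ ⟨g', c'⟩ ⟨h1, h2, h3⟩ ⟨h1', h2', h3'⟩
    refine ⟨fun u v => ?_, fun X hX => ?_, fun X hX => ?_⟩
    · change om (g.1 (g'.1 u)) (g.1 (g'.1 v)) = c.1 * c'.1 * om u v
      rw [h1, h1', mul_assoc]
    · have h4 := h2 _ (h2' X hX)
      have h5 : (g * g').1 * X * (g * g')⁻¹.1 = g.1 * (g'.1 * X * g'⁻¹.1) * g⁻¹.1 := by
        rw [mul_inv_rev]
        push_cast
        noncomm_ring
      change (g * g').1 * X * (g * g')⁻¹.1 ∈ 𝔥
      rw [h5]
      exact h4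
    · have h4 := h3' _ (h3 X hX)
      have h5 : (g * g')⁻¹.1 * X * (g * g').1 = g'⁻¹.1 * (g⁻¹.1 * X * g.1) * g'.1 := by
        rw [mul_inv_rev]
        push_cast
        noncomm_ring
      change (g * g')⁻¹.1 * X * (g * g').1 ∈ 𝔥
      rw [h5]
      exact h4
  inv_mem' := by
    rintro ⟨g, c⟩ ⟨h1, h2, h3⟩
    refine ⟨fun u v => ?_, fun X hX => ?_, fun X hX => ?_⟩
    · change om (g⁻¹.1 u) (g⁻¹.1 v) = c⁻¹.1 * om u v
      have h4 := h1 (g⁻¹.1 u) (g⁻¹.1 v)
      have h5 : ∀ w, g.1 (g⁻¹.1 w) = w := by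
        intro w
        rw [← Module.End.mul_apply, ← Units.val_mul, mul_inv_cancel]
        rfl
      change om (g.1 (g⁻¹.1 u)) (g.1 (g⁻¹.1 v)) = c.1 * _ at h4
      rw [h5, h5] at h4
      rw [h4, ← mul_assoc, ← Units.val_mul, inv_mul_cancel, Units.val_one, one_mul]
    · change g⁻¹.1 * X * g⁻¹⁻¹.1 ∈ 𝔥
      rw [inv_inv]
      exact h3 X hX
    · change g⁻¹⁻¹.1 * X * g⁻¹.1 ∈ 𝔥
      rw [inv_inv]
      exact h2 X hX

/-- The action of the normalizer. -/
def nrmRep : Representation K (nrm om 𝔥) U :=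
  (Units.coeHom (Module.End K U)).comp ((MonoidHom.fst _ _).comp (nrm om 𝔥).subtype)

/-- The multiplier. -/
def nrmMul : nrm om 𝔥 →* K :=
  (Units.coeHom K).comp ((MonoidHom.snd _ _).comp (nrm om 𝔥).subtype)

theorem nrm_core [FiniteDimensional K U] [IsAlgClosed K] {Δ : Type} [Group Δ]
    (r : Representation K Δ U) (χ : Δ →* K) (halt : ∀ v, om v v = 0)
    (hnd : ∀ u, (∀ v, om v u = 0) → u = 0)
    (hsim : ∀ s u v, om (r s u) (r s v) = χ s * om u v)
    (hirr : ∀ Δ' : Subgroup Δ, Δ'.FiniteIndex → ∀ W : Submodule K U,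
      (∀ s ∈ Δ', ∀ u ∈ W, r s u ∈ W) → W = ⊥ ∨ W = ⊤)
    (hbr : ∀ X ∈ 𝔥, ∀ Y ∈ 𝔥, X * Y - Y * X ∈ 𝔥)
    (hconj : ∀ s : Δ, ∀ X ∈ 𝔥, r s * X * r s⁻¹ ∈ 𝔥)
    (hsp : ∀ X ∈ 𝔥, ∀ u w, om (X u) w + om u (X w) = 0) {a b : U} (hab : om a b = 0)
    (hN : SS om a b ≠ 0) (hmem : SS om a b ∈ 𝔥) : ∀ u v, SS om u v ∈ 𝔥 := by
  set N := SS om a b with hNdef
  have hanti := alt_anti halt
  have hN2 : N * N = 0 := by
    have hNv : ∀ v, N v = om a v • b + om b v • a := fun v => SS_apply om a b v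
    have ha : N a = 0 := by rw [hNv, halt, hanti b a, hab]; simp
    have hb : N b = 0 := by rw [hNv, halt, hab]; simp
    refine LinearMap.ext fun v => ?_
    rw [Module.End.mul_apply, hNv v, map_add, map_smul, map_smul, ha, hb, smul_zero, smul_zero,
      add_zero, LinearMap.zero_apply]
  -- the exponential
  let t : (Module.End K U)ˣ := ⟨1 + N, 1 - N, by
    have h1 : (1 + N) * (1 - N) = 1 - N * N := by noncomm_ring
    rw [h1, hN2, sub_zero], by
    have h1 : (1 - N) * (1 + N) = 1 - N * N := by noncomm_ring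
    rw [h1, hN2, sub_zero]⟩
  have hexp : ∀ X ∈ 𝔥, (1 + N) * X * (1 - N) ∈ 𝔥 := by
    intro X hX
    have h1 : (1 + N) * X * (1 - N) = X + (N * X - X * N) +
        (1 / 2 : K) • (N * (N * X - X * N) - (N * X - X * N) * N) := by
      have h2 : N * (N * X - X * N) - (N * X - X * N) * N = (-2 : K) • (N * X * N) := by
        have h3 : N * (N * X - X * N) - (N * X - X * N) * N =
            (N * N) * X - N * X * N - N * X * N + X * (N * N) := by noncomm_ring
        rw [h3, hN2, zero_mul, mul_zero, zero_sub, add_zero]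
        module
      rw [h2, smul_smul]
      have h4 : (1 / 2 : K) * -2 = -1 := by norm_num
      rw [h4, neg_one_smul]
      noncomm_ring
    rw [h1]
    exact 𝔥.add_mem (𝔥.add_mem hX (hbr _ hmem _ hX))
      (𝔥.smul_mem _ (hbr _ hmem _ (hbr _ hmem _ hX)))
  have hexp' : ∀ X ∈ 𝔥, (1 - N) * X * (1 + N) ∈ 𝔥 := by
    intro X hX
    have h1 : (1 - N) * X * (1 + N) = X - (N * X - X * N) +
        (1 / 2 : K) • (N * (N * X - X * N) - (N * X - X * N) * N) := by
      have h2 : N * (N * X - X * N) - (N * X - X * N) * N = (-2 : K) • (N * X * N) := by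
        have h3 : N * (N * X - X * N) - (N * X - X * N) * N =
            (N * N) * X - N * X * N - N * X * N + X * (N * N) := by noncomm_ring
        rw [h3, hN2, zero_mul, mul_zero, zero_sub, add_zero]
        module
      rw [h2, smul_smul]
      have h4 : (1 / 2 : K) * -2 = -1 := by norm_num
      rw [h4, neg_one_smul]
      noncomm_ring
    rw [h1]
    exact 𝔥.add_mem (𝔥.sub_mem hX (hbr _ hmem _ hX))
      (𝔥.smul_mem _ (hbr _ hmem _ (hbr _ hmem _ hX)))
  have ht : ((t, 1) : (Module.End K U)ˣ × Kˣ) ∈ nrm om 𝔥 := by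
    refine ⟨fun u v => ?_, hexp, hexp'⟩
    change om ((1 + N) u) ((1 + N) v) = 1 * om u v
    rw [LinearMap.add_apply, LinearMap.add_apply, Module.End.one_apply, Module.End.one_apply,
      map_add, map_add, LinearMap.add_apply, LinearMap.add_apply, one_mul]
    have h1 := hsp N hmem u v
    have h2 := hsp N hmem u (N v)
    have h3 : N (N v) = 0 := by rw [← Module.End.mul_apply, hN2, LinearMap.zero_apply]
    rw [h3, map_zero, add_zero] at h2
    linear_combination h1 + h2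
  -- the given group
  let θ : Δ →* (Module.End K U)ˣ × Kˣ := (MonoidHom.toHomUnits r).prod (MonoidHom.toHomUnits χ)
  have hθ : ∀ s, θ s ∈ nrm om 𝔥 := by
    intro s
    have hinv : (θ s).1⁻¹.1 = r s⁻¹ := by
      change ((MonoidHom.toHomUnits r s)⁻¹ : (Module.End K U)ˣ).1 = r s⁻¹
      rw [← map_inv]
      rfl
    refine ⟨fun u v => hsim s u v, fun X hX => ?_, fun X hX => ?_⟩
    · rw [hinv]
      exact hconj s X hX
    · rw [hinv]
      have h1 := hconj s⁻¹ X hX
      rw [inv_inv] at h1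
      exact h1
  let θ' : Δ →* nrm om 𝔥 := θ.codRestrict (nrm om 𝔥) hθ
  refine core om (nrmRep om 𝔥) (nrmMul om 𝔥) halt hnd (fun s u v => s.2.1 u v) ?_ 𝔥 hbr
    (fun s X hX => s.2.2.1 X hX) hsp hab hN hmem (t := ⟨(t, 1), ht⟩) rfl
  intro Δ' hΔ' W hW
  have hfi : (Δ'.comap θ').FiniteIndex := by
    refine ⟨?_⟩
    rw [Subgroup.index_comap]
    intro h
    exact hΔ'.index_ne_zero (Subgroup.index_eq_zero_of_relIndex_eq_zero h)
  refine hirr (Δ'.comap θ') hfi W fun s hs u hu => ?_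
  exact hW (θ' s) hs u hu

end normalizer

variable {K : Type} [Field K] [CharZero K] {X : Type} [AddCommGroup X] [Module K X]
  [FiniteDimensional K X] {Γ : Type} [Group Γ] {R : Representation K Γ X} {χ : Γ →* K}

/-- The core property from a nilpotent element of rank at most two in the Lie algebra. -/
theorem coreProp_nil [IsAlgClosed K] {U : Submodule K X} (hU : SI R U) {N : Module.End K X}
    (hN : N ∈ lieT R χ) (hN2 : N * N = 0) (h0 : U.map N ≠ ⊥)
    (hle : finrank K (U.map N) ≤ 2) : CoreProp R χ U := by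
  intro Δ hΔ hUΔ 𝔥 om halt hnd' hsim hbr hconj hsp hlie
  obtain ⟨x, hx, hx0⟩ := exists_ne h0
  obtain ⟨M, hM, hMx⟩ := hlie _ hN
  have hM2 : M * M = 0 := by
    have h3 := sq_res hMx 0 (by rw [hN2, zero_smul])
    rw [h3, zero_smul]
  have hrk : finrank K (LinearMap.range M) ≤ 2 := by
    have h1 := rk_res hMx
    unfold rk at h1
    rw [h1]
    exact hle
  obtain ⟨a, b, hab, hMi⟩ := Pool.Agent.W528.Tor.exists_SS om halt hnd' (hsp M hM) hM2 hrk
  refine nrm_core om 𝔥 (resR R Δ U hUΔ) (χ.comp Δ.subtype) halt hnd' hsim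
    (sIrr_res hU Δ hΔ hUΔ) hbr hconj hsp hab ?_ ?_
  · rw [← hMi]
    intro hM0
    have h1 := hMx ⟨x, hx⟩
    rw [hM0] at h1
    apply hx0
    exact h1.symm
  · rw [← hMi]
    exact hM

end

end Pool.Agent.TH118.CU
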