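import Mathlib
import Pool.Agent.TH118.CU.CoreNil
import Pool.Agent.TH118.CU.Nil2
import Pool.Agent.TH118.CU.Bi2
import Pool.Agent.TH118.CR.Final

/-!
# Tate classes and symplectic bireflections
-/

set_option linter.unusedSectionVars false

namespace Pool.Agent.TH118.CU

open Module Pool.Agent.H204R3.SP Pool.Agent.H204R3.GP Pool.Agent.W522.U Pool.Agent.TH118.WC
open Pool.Agent.TH118.CR Pool.Agent.W529.Ta Pool.Agent.W528.Odd
open Pool.Agent.W528.Tor (AltDual)

/-- For each `i` there is an element of the group of finite order on the whole space, acting on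
each `E j` as a scalar times a symplectic bireflection with eigenvalues `ζ j`, `(ζ j)⁻¹`; here `ζ i` is
different from `1` and `-1`, and no `ζ j` is of order three. -/
def HasBireflections {K : Type} [Field K] {X : Type} [AddCommGroup X] [Module K X]
    {Γ : Type} [Group Γ] (R : Representation K Γ X) (ω : X →ₗ[K] X →ₗ[K] K) {I : Type}
    (E : I → Submodule K X) : Prop :=
  ∀ i, ∃ γ : Γ, (∃ k : ℕ, 0 < k ∧ R γ ^ k = 1) ∧ ∃ ζ : I → K,
    (∀ j, BireflectsOn R ω γ (E j) (ζ j)) ∧ (∀ j, ζ j = 1 ∨ ζ j ^ 3 ≠ 1) ∧ ζ i ≠ 1 ∧ ζ i ≠ -1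

variable {K : Type} [Field K] [CharZero K] {X : Type} [AddCommGroup X]
  [Module K X] [FiniteDimensional K X] {Γ : Type} [Group Γ] {R : Representation K Γ X}
  {χ : Γ →* K} {I : Type} {E : I → Submodule K X}

/-- If `Y l` is not in the plane, the average is a nilpotent element of rank at most two. -/
theorem bi_caseA {ω : X →ₗ[K] X →ₗ[K] K} (halt : ∀ v, ω v v = 0)
    (hωR : ∀ g u v, ω (R g u) (R g v) = χ g * ω u v)
    (hE : ⨆ j, E j = ⊤) (hst : ∀ j, ∀ Y ∈ lieT R χ, ∀ u ∈ E j, Y u ∈ E j) {γ : Γ}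
    {k : ℕ} (hk : 0 < k) (hγ : R γ ^ k = 1) (ζ : I → K) (hr : ∀ j, BireflectsOn R ω γ (E j) (ζ j))
    (h3 : ∀ j, ζ j = 1 ∨ ζ j ^ 3 ≠ 1) (i : I) (hd : 3 ≤ finrank K (E i)) {z c : K} {l l' : X}
    (hb : BiAt R ω γ (E i) z c l l') (hz1 : z ≠ 1) (hz2 : z ≠ -1) (hz3 : z ^ 3 ≠ 1)
    (hY : ∃ Y ∈ lieT R χ, Y l ∉ Submodule.span K {l, l'}) :
    ∃ N ∈ lieT R χ, N * N = 0 ∧ (E i).map N ≠ ⊥ ∧ finrank K ((E i).map N) ≤ 2 := by
  obtain ⟨hl, hc, hz⟩ := hb.ne halt
  obtain ⟨hck, hzk⟩ := hb.order halt hd hγ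
  obtain ⟨Y, hY, hYl⟩ := hY
  have hμk : (z⁻¹) ^ k = 1 := by rw [inv_pow, hzk, inv_one]
  have hμ1 : z⁻¹ ≠ 1 := fun h => hz1 (inv_eq_one.1 h)
  have hμ2 : z⁻¹ ≠ -1 := by
    intro h
    apply hz2
    rw [← inv_inv z, h, inv_neg, inv_one]
  have hN := avg_mem (R := R) (χ := χ) γ k z⁻¹ hY
  have hμ := avg_semi hγ hμk (inv_ne_zero hz) Y
  have hNU : ∀ j, ∀ u ∈ E j, avg R γ k z⁻¹ Y u ∈ E j := fun j => hst j _ hN
  have hsk : ∀ u v, ω (avg R γ k z⁻¹ Y u) v + ω u (avg R γ k z⁻¹ Y v) = 0 :=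
    lieT_sp R χ ω hωR hN
  refine ⟨avg R γ k z⁻¹ Y, hN, ?_, ?_, ?_⟩
  · rw [← LinearMap.ker_eq_top, eq_top_iff, ← hE, iSup_le_iff]
    intro j u hu
    obtain ⟨c', m, m', hb'⟩ := hr j
    rw [LinearMap.mem_ker, Module.End.mul_apply]
    exact hb'.sq_zero halt (hNU j) hsk hμ hμ1 hμ2 (h3 j) u hu
  · intro h0
    have h1 : avg R γ k z⁻¹ Y l ∈ (E i).map (avg R γ k z⁻¹ Y) := Submodule.mem_map_of_mem hb.1
    rw [h0, Submodule.mem_bot, hb.avg_l halt hck hzk hz1 (hst i Y hY)] at h1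
    have hkK : (k : K) ≠ 0 := Nat.cast_ne_zero.2 hk.ne'
    have h2 := (smul_eq_zero.1 h1).resolve_left hkK
    apply hYl
    have h4 : Y l = ω (Y l) l' • l + ω l (Y l) • l' := by
      rw [← sub_eq_zero, ← h2]
      abel
    rw [h4]
    exact Submodule.add_mem _ (Submodule.smul_mem _ _ (Submodule.subset_span (by simp)))
      (Submodule.smul_mem _ _ (Submodule.subset_span (by simp)))
  · exact hb.rank_le halt hz1 hz2 hz3 (hNU i) hμ

/-- A symplectic bireflection of order at least four gives a nilpotent element of the Lie algebra of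
rank at most two. -/
theorem bi_N [IsAlgClosed K] {ω : X →ₗ[K] X →ₗ[K] K} (halt : ∀ v, ω v v = 0)
    (hωR : ∀ g u v, ω (R g u) (R g v) = χ g * ω u v)
    (hE : ⨆ j, E j = ⊤) (hst : ∀ j, ∀ Y ∈ lieT R χ, ∀ u ∈ E j, Y u ∈ E j) {γ : Γ}
    {k : ℕ} (hk : 0 < k) (hγ : R γ ^ k = 1) (ζ : I → K) (hr : ∀ j, BireflectsOn R ω γ (E j) (ζ j))
    (h3 : ∀ j, ζ j = 1 ∨ ζ j ^ 3 ≠ 1) (i : I) (hi1 : ζ i ≠ 1) (hi2 : ζ i ≠ -1)
    (hd : 3 ≤ finrank K (E i)) (hSI : SI R (E i))
    (hns : ∃ Y ∈ lieT R χ, ¬∃ a : K, ∀ u ∈ E i, Y u = a • u) :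
    ∃ N ∈ lieT R χ, N * N = 0 ∧ (E i).map N ≠ ⊥ ∧ finrank K ((E i).map N) ≤ 2 := by
  obtain ⟨c, l, l', hb⟩ := hr i
  obtain ⟨hl, hc, hz⟩ := hb.ne halt
  have hz3 : ζ i ^ 3 ≠ 1 := (h3 i).resolve_left hi1
  by_cases h1 : ∃ Y ∈ lieT R χ, Y l ∉ Submodule.span K {l, l'}
  · exact bi_caseA halt hωR hE hst hk hγ ζ hr h3 i hd hb hi1 hi2 hz3 h1
  by_cases h2 : ∃ Y ∈ lieT R χ, Y l' ∉ Submodule.span K {l, l'}
  · refine bi_caseA halt hωR hE hst hk hγ ζ hr h3 i hd (hb.symm halt)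
      (fun h => hi1 (inv_eq_one.1 h)) (fun h => hi2 (by rw [← inv_inv (ζ i), h, inv_neg, inv_one]))
      (by rwa [inv_pow, ne_eq, inv_eq_one]) ?_
    obtain ⟨Y, hY, hYl⟩ := h2
    refine ⟨Y, hY, fun h => hYl ?_⟩
    refine (Submodule.span_le.2 ?_ : Submodule.span K ({l', -l} : Set X) ≤ _) h
    intro x hx
    rcases hx with rfl | hx
    · exact Submodule.subset_span (by simp)
    · rw [Set.mem_singleton_iff] at hx
      rw [hx]
      exact Submodule.neg_mem _ (Submodule.subset_span (by simp))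
  exfalso
  push Not at h1 h2
  have hll := hb.2.2.1
  have hrig := rigid (R := R) hSI (lieT R χ) (fun g Y hY => lieT_conj R χ g hY) (l := l) (l' := l')
    hb.1 (φ := ω.flip l') (φ' := ω l) hll (halt l') (halt l) hll
    (fun Y hY => ⟨h1 Y hY, h2 Y hY⟩)
  have hanti := alt_anti halt
  -- the matrix of `Y` on the plane
  have hYl : ∀ Y ∈ lieT R χ, Y l = ω (Y l) l' • l + ω l (Y l) • l' := fun Y hY =>
    plane_coord (φ := ω.flip l') (φ' := ω l) hll (halt l') (halt l) hll (h1 Y hY)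
  have hYl' : ∀ Y ∈ lieT R χ, Y l' = ω (Y l') l' • l + ω l (Y l') • l' := fun Y hY =>
    plane_coord (φ := ω.flip l') (φ' := ω l) hll (halt l') (halt l) hll (h2 Y hY)
  -- a vector orthogonal to the plane
  obtain ⟨v, hv, hv0, hv1, hv2⟩ : ∃ v ∈ E i, v ≠ 0 ∧ ω l v = 0 ∧ ω v l' = 0 := by
    by_contra hcon
    push Not at hcon
    have hinj2 : Function.Injective ((((ω l).comp (E i).subtype).prod
        ((ω.flip l').comp (E i).subtype)) : E i →ₗ[K] K × K) := by
      rw [injective_iff_map_eq_zero]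
      intro u hu
      by_contra h4
      have h5 : ω l u = 0 := congrArg Prod.fst hu
      have h6 : ω u l' = 0 := congrArg Prod.snd hu
      exact hcon u u.2 (fun h => h4 (Subtype.ext h)) h5 h6
    have h4 := LinearMap.finrank_le_finrank_of_injective hinj2
    rw [finrank_prod, finrank_self] at h4
    omega
  have hvc : R γ v = c • v := by
    rw [hb.2.2.2 v hv, hv1, hv2, mul_zero, mul_zero, zero_smul, zero_smul, add_zero, add_zero]
  have hinvc : ∀ (w : X) (β : K), β ≠ 0 → R γ w = β • w → R γ⁻¹ w = β⁻¹ • w := by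
    intro w β hβ hw
    have h4 : R γ⁻¹ (R γ w) = w := Rinv _ _
    rw [hw, map_smul] at h4
    rw [← h4, smul_smul, inv_mul_cancel₀ hβ, one_smul, h4]
  have hprod : ∀ Y ∈ lieT R χ, ω l (Y l) * ω (Y l') l' = 0 := by
    intro Y hY
    have hZ : Y - R γ * Y * R γ⁻¹ ∈ lieT R χ :=
      (lieT R χ).sub_mem hY (lieT_conj R χ γ hY)
    -- `Y v` is orthogonal to the plane
    have hsk := lieT_sp R χ ω hωR hY
    have g1 : ω l (Y v) = 0 := by
      have e1 := hsk l v
      have e2 : ω (Y l) v = 0 := by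
        rw [hYl Y hY, map_add, map_smul, map_smul, LinearMap.add_apply, LinearMap.smul_apply,
          LinearMap.smul_apply, hv1, hanti l' v, hv2]
        simp
      rw [e2, zero_add] at e1
      exact e1
    have g2 : ω (Y v) l' = 0 := by
      have e1 := hsk v l'
      have e2 : ω v (Y l') = 0 := by
        rw [hYl' Y hY, map_add, map_smul, map_smul, hv2, hanti v l, hv1]
        simp
      rw [e2, add_zero] at e1
      exact e1
    have g3 : R γ (Y v) = c • Y v := by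
      rw [hb.2.2.2 _ (hst i Y hY v hv), g1, g2, mul_zero, mul_zero, zero_smul, zero_smul, add_zero,
        add_zero]
    have g4 : (Y - R γ * Y * R γ⁻¹) v = 0 := by
      rw [LinearMap.sub_apply, Module.End.mul_apply, Module.End.mul_apply, hinvc v c hc hvc,
        map_smul, map_smul, g3, smul_smul, inv_mul_cancel₀ hc, one_smul, sub_self]
    have g5 := hrig _ hZ v hv
    rw [g4, map_zero, smul_zero, sub_zero, zero_add] at g5
    have g6 := (smul_eq_zero.1 g5).resolve_right hv0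
    -- the values at `l` and `l'`
    have e1 : (Y - R γ * Y * R γ⁻¹) l = (ω l (Y l) * (1 - (ζ i)⁻¹ * (ζ i)⁻¹)) • l' := by
      rw [LinearMap.sub_apply, Module.End.mul_apply, Module.End.mul_apply,
        hinvc l _ (mul_ne_zero hc hz) (hb.l_eig halt), map_smul, map_smul]
      nth_rewrite 1 2 [hYl Y hY]
      rw [map_add, map_smul, map_smul, hb.l_eig halt, hb.l'_eig halt, mul_inv]
      have h4 : c⁻¹ * c = 1 := inv_mul_cancel₀ hc
      have h5 : (ζ i)⁻¹ * ζ i = 1 := inv_mul_cancel₀ hz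
      generalize (c⁻¹) = c1 at *
      generalize ω (Y l) l' = x at *
      generalize ω l (Y l) = y at *
      generalize (ζ i)⁻¹ = z1 at *
      generalize ζ i = z2 at *
      match_scalars
      · linear_combination -(x * z1 * z2) * h4 - x * h5
      · linear_combination -(y * z1 * z1) * h4
    have e2 : (Y - R γ * Y * R γ⁻¹) l' = (ω (Y l') l' * (1 - ζ i * ζ i)) • l := by
      rw [LinearMap.sub_apply, Module.End.mul_apply, Module.End.mul_apply,
        hinvc l' _ (mul_ne_zero hc (inv_ne_zero hz)) (hb.l'_eig halt), map_smul, map_smul]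
      nth_rewrite 1 2 [hYl' Y hY]
      rw [map_add, map_smul, map_smul, hb.l_eig halt, hb.l'_eig halt, mul_inv, inv_inv]
      have h4 : c⁻¹ * c = 1 := inv_mul_cancel₀ hc
      have h5 : (ζ i)⁻¹ * ζ i = 1 := inv_mul_cancel₀ hz
      generalize (c⁻¹) = c1 at *
      generalize ω (Y l') l' = x at *
      generalize ω l (Y l') = y at *
      generalize (ζ i)⁻¹ = z1 at *
      generalize ζ i = z2 at *
      match_scalars
      · linear_combination -(x * z2 * z2) * h4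
      · linear_combination -(y * z1 * z2) * h4 - y * h5
    have e3 : tr2 l l' (ω.flip l') (ω l) (Y - R γ * Y * R γ⁻¹) = 0 := by
      rw [tr2, e1, e2, map_smul, map_smul, LinearMap.flip_apply, halt, halt, smul_zero, smul_zero,
        add_zero]
    have e4 : tr2 l l' (ω.flip l') (ω l) ((Y - R γ * Y * R γ⁻¹) * (Y - R γ * Y * R γ⁻¹)) =
        2 * ((ω l (Y l) * (1 - (ζ i)⁻¹ * (ζ i)⁻¹)) * (ω (Y l') l' * (1 - ζ i * ζ i))) := by
      generalize Y - R γ * Y * R γ⁻¹ = Z at e1 e2 ⊢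
      rw [tr2, Module.End.mul_apply, Module.End.mul_apply, e1, e2, map_smul Z, map_smul Z, e1, e2]
      simp only [map_smul, smul_eq_mul, LinearMap.flip_apply, hll]
      ring
    rw [det2, e3, e4] at g6
    have hζζ : ζ i * ζ i ≠ 1 := mu_sq hi1 hi2
    have hζζ' : (ζ i)⁻¹ * (ζ i)⁻¹ ≠ 1 := by
      intro h
      apply hζζ
      have h4 : (ζ i)⁻¹ * (ζ i)⁻¹ * (ζ i * ζ i) = 1 := by field_simp
      rwa [h, one_mul] at h4
    have h4 : (1 - (ζ i)⁻¹ * (ζ i)⁻¹) ≠ 0 := sub_ne_zero.2 (Ne.symm hζζ')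
    have h5 : (1 - ζ i * ζ i) ≠ 0 := sub_ne_zero.2 (Ne.symm hζζ)
    have h6 : (1 - (ζ i)⁻¹ * (ζ i)⁻¹) * (1 - ζ i * ζ i) * (ω l (Y l) * ω (Y l') l') = 0 := by
      linear_combination -g6
    exact (mul_eq_zero.1 h6).resolve_left (mul_ne_zero h4 h5)
  -- one of the two linear functionals vanishes
  obtain ⟨Y, hY, hna⟩ := hns
  by_cases hall : ∀ Y ∈ lieT R χ, ω l (Y l) = 0
  · refine hna (scalar_of_vector hSI (lieT R χ) (fun g Y hY => lieT_conj R χ g hY) hb.1 hl
      (fun Y hY => ⟨ω (Y l) l', ?_⟩) Y hY)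
    have h4 := hYl Y hY
    rw [hall Y hY, zero_smul, add_zero] at h4
    exact h4
  · push Not at hall
    obtain ⟨Y0, hY0, hY00⟩ := hall
    have hall' : ∀ Y ∈ lieT R χ, ω (Y l') l' = 0 := by
      intro Y1 hY1
      have h5 := (mul_eq_zero.1 (hprod Y0 hY0)).resolve_left hY00
      have h6 := hprod Y1 hY1
      have h7 := hprod (Y0 + Y1) ((lieT R χ).add_mem hY0 hY1)
      rw [LinearMap.add_apply, LinearMap.add_apply, map_add, map_add, LinearMap.add_apply, h5,
        zero_add] at h7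
      have h8 : ω l (Y0 l) * ω (Y1 l') l' = 0 := by linear_combination h7 - h6
      exact (mul_eq_zero.1 h8).resolve_left hY00
    have hl'0 : l' ≠ 0 := by
      rintro rfl
      rw [map_zero] at hll
      exact zero_ne_one hll
    refine hna (scalar_of_vector hSI (lieT R χ) (fun g Y hY => lieT_conj R χ g hY) hb.2.1 hl'0
      (fun Y hY => ⟨ω l (Y l'), ?_⟩) Y hY)
    have h4 := hYl' Y hY
    rw [hall' Y hY, zero_smul, zero_add] at h4
    exact h4

/-- If all strongly irreducible subspaces are self-dual there are no determinants. -/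
theorem detProd_pt {m : ℕ} (hsd : ∀ U, SI R U → Du R χ U U)
    (φ : MultilinearMap K (fun _ : Fin m × Fin 2 => X) K)
    (hφ : φ ∈ Submodule.span K (DetProd R χ m)) : φ ∈ Submodule.span K (PT R χ m) := by
  classical
  refine Submodule.span_mono ?_ hφ
  rintro ψ ⟨P, Q, hP, hQ, U, f, e, B, C, hB, hC, hU, hnd, -, hψ⟩
  have hemp : IsEmpty Q := ⟨fun q => hnd q q (hsd _ (hU q))⟩
  have hcard : Fintype.card P = m := by
    have h1 := Fintype.card_congr e
    rw [Fintype.card_sum, Fintype.card_prod, Fintype.card_prod, Fintype.card_fin,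
      Fintype.card_fin, Fintype.card_sigma, Finset.univ_eq_empty, Finset.sum_empty] at h1
    omega
  let ε : Fin m ≃ P := (Fintype.equivFinOfCardEq hcard).symm
  let σ : Equiv.Perm (Fin m × Fin 2) :=
    ((ε.prodCongr (Equiv.refl (Fin 2))).trans (Equiv.sumEmpty _ _).symm).trans e
  refine ⟨σ, fun s => B (ε s), fun s => hB _, ?_⟩
  refine MultilinearMap.ext fun v => ?_
  rw [mmG_apply, hψ, Finset.univ_eq_empty (α := Q), Finset.prod_empty, mul_one]
  exact (Fintype.prod_equiv ε _ _ fun s => rfl).symm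

/-- The main theorem over an algebraically closed field. -/
theorem bi_pt [IsAlgClosed K] (ω : X →ₗ[K] X →ₗ[K] K) (halt : ∀ v, ω v v = 0)
    (hnd : ∀ u, (∀ v, ω u v = 0) → u = 0)
    (hωR : ∀ g u v, ω (R g u) (R g v) = χ g * ω u v) (hss : HasProj R)
    (hE : StronglyIrreducibleSum R E) (hbi : HasBireflections R ω E) (hF : HasFrobenii R E)
    {m : ℕ} (φ : MultilinearMap K (fun _ : Fin m × Fin 2 => X) K) (hφ : IsTate R χ m φ) :
    φ ∈ Submodule.span K (PT R χ m) := by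
  have hst : ∀ j, ∀ Y ∈ lieT R χ, ∀ u ∈ E j, Y u ∈ E j := fun j Y hY =>
    lieT_stable ω hnd hωR hss (hE.1 j).2.1 hY
  have hN : ∀ i, ∃ N ∈ lieT R χ, N * N = 0 ∧ (E i).map N ≠ ⊥ ∧ finrank K ((E i).map N) ≤ 2 := by
    intro i
    obtain ⟨γ, ⟨k, hk, hγ⟩, ζ, hr, h3, hi1, hi2⟩ := hbi i
    obtain ⟨F, b, hb, u, hu, v, hv, hu0, hv0, al, be, hal, hbe, hab⟩ := hF i
    refine bi_N halt hωR hE.2.2 hst hk hγ ζ hr h3 i hi1 hi2 (hE.2.1 i) (hE.1 i) ?_
    obtain ⟨Y, hY, s, t, hst', hYu, hYv⟩ := exists_nonscalar R χ F b hb hu0 hv0 hal hbe hab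
    refine ⟨Y, hY, ?_⟩
    rintro ⟨a, ha⟩
    apply hst'
    have h3 : s = a := by
      have h4 : (s - a) • u = 0 := by rw [sub_smul, ← hYu, ha u hu, sub_self]
      exact sub_eq_zero.1 ((smul_eq_zero.1 h4).resolve_right hu0)
    have h5 : t = a := by
      have h4 : (t - a) • v = 0 := by rw [sub_smul, ← hYv, ha v hv, sub_self]
      exact sub_eq_zero.1 ((smul_eq_zero.1 h4).resolve_right hv0)
    rw [h3, h5]
  have hself : ∀ i, ∃ u ∈ E i, ∃ v ∈ E i, ω u v ≠ 0 := by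
    intro i
    obtain ⟨γ, -, ζ, hr, -⟩ := hbi i
    obtain ⟨c, l, l', hl, hl', h1, -⟩ := hr i
    exact ⟨l, hl, l', hl', by rw [h1]; exact one_ne_zero⟩
  have haltd : ∀ U, SI R U → AltDual R χ U := by
    intro U hU
    obtain ⟨i, Δ, hΔ, T, hTU, h0, hT⟩ := exists_iso hss hE hU
    have hmap := tw_map hU (hE.1 i) hΔ hTU h0 hT
    obtain ⟨u, hu, v, hv, huv⟩ := hself i
    rw [← hmap] at hu hv
    obtain ⟨u', hu', rfl⟩ := hu
    obtain ⟨v', hv', rfl⟩ := hv
    refine ⟨Δ, hΔ, ω.compl₁₂ T T, ⟨u', hu', v', hv', huv⟩, fun w _ => ?_, fun g hg w hw w' hw' => ?_⟩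
    · rw [LinearMap.compl₁₂_apply, halt]
    · rw [LinearMap.compl₁₂_apply, LinearMap.compl₁₂_apply, hT g hg w hw, hT g hg w' hw', one_smul,
        one_smul, hωR]
  have hsd : ∀ U, SI R U → Du R χ U U := by
    intro U hU
    obtain ⟨Δ, hΔ, B, h0, -, hB⟩ := haltd U hU
    exact ⟨Δ, hΔ, B, h0, hB⟩
  have hdim : ∀ U, SI R U → 3 ≤ finrank K U := by
    intro U hU
    obtain ⟨i, Δ, hΔ, T, hTU, h0, hT⟩ := exists_iso hss hE hU
    obtain ⟨e, -⟩ := tw_equiv hU (hE.1 i) hΔ hTU h0 hT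
    rw [e.finrank_eq]
    exact hE.2.1 i
  refine detProd_pt hsd φ (nil_det ω hnd hωR ?_ hss ?_ ?_ φ hφ)
  · intro U hU _
    obtain ⟨i, hi⟩ := exists_iso hss hE hU
    obtain ⟨N, hN1, hN2, hN3, hN4⟩ := hN i
    have hrk := rank_transfer ω hnd hωR hss hU (hE.1 i) hi hN1
    have hne : U.map N ≠ ⊥ := by
      intro h0
      apply hN3
      rw [← Submodule.finrank_eq_zero (R := K), hrk, h0, finrank_bot]
    rw [hrk] at hN4
    exact ⟨N, hN1, hN2, Or.inr ⟨hne, haltd U hU, coreProp_nil hU hN1 hN2 hne hN4⟩⟩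
  · intro U hU h1
    have h3 := hdim U hU
    omega
  · intro U U' hU _ _ hnsd
    exact absurd (hsd U hU) hnsd

open scoped TensorProduct in
/-- The base change of an alternating form is alternating. -/
theorem bcb_alt {k : Type} [Field k] [CharZero k] {V : Type} [AddCommGroup V] [Module k V]
    {Ω : Type} [Field Ω] [CharZero Ω] [Algebra k Ω] (ω : V →ₗ[k] V →ₗ[k] k)
    (halt : ∀ v, ω v v = 0) (u : Ω ⊗[k] V) : bcb Ω ω u u = 0 := by
  have hskew : ∀ a b, ω a b = -ω b a := by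
    intro a b
    have h := halt (a + b)
    simp only [map_add, LinearMap.add_apply, halt, zero_add, add_zero] at h
    exact eq_neg_of_add_eq_zero_right h
  have h1 : ∀ (a b : Ω ⊗[k] V), bcb Ω ω a b = -bcb Ω ω b a := by
    intro a b
    induction a using TensorProduct.induction_on with
    | zero => simp
    | tmul x v =>
      induction b using TensorProduct.induction_on with
      | zero => simp
      | tmul y w =>
        rw [bcb_tmul, bcb_tmul, hskew v w, neg_smul, mul_comm]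
      | add p q hp hq => rw [map_add, map_add, LinearMap.add_apply, hp, hq, neg_add]
    | add p q hp hq => rw [map_add, map_add, LinearMap.add_apply, hp, hq, neg_add]
  have h2 := h1 u u
  have h3 : (2 : Ω) * bcb Ω ω u u = 0 := by linear_combination h2
  exact (mul_eq_zero.1 h3).resolve_left two_ne_zero

end Pool.Agent.TH118.CU
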